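import Pool.Agent.C4K.StNum

/-!
# C4K, module NU3: numbers, third part
-/

set_option autoImplicit false

noncomputable section

namespace Pool.Agent.C4K.H17

open Finset Pool.Agent.C4K

/-- `k` is large -/
structure Big (k : ℝ) : Prop where
  one : 1 ≤ k
  log : 60 ≤ Real.log k
  pow : 12000000 * Real.log k ^ 2 ≤ k ^ (0.001 : ℝ)

theorem big_ev : ∃ k0 : ℝ, ∀ k, k0 ≤ k → Big k := by
  have h1 : ∀ᶠ k : ℝ in Filter.atTop, 60 ≤ Real.log k :=
    Real.tendsto_log_atTop.eventually (Filter.eventually_ge_atTop 60)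
  have h2 : ∀ᶠ k : ℝ in Filter.atTop, (1 : ℝ) ≤ k := Filter.eventually_ge_atTop 1
  have h3 := (isLittleO_log_rpow_rpow_atTop (s := (0.001 : ℝ)) 2 (by norm_num)).def
    (c := 1 / 12000000) (by norm_num)
  obtain ⟨k0, hk0⟩ := Filter.eventually_atTop.1 (h1.and (h2.and h3))
  refine ⟨k0, fun k hk => ?_⟩
  obtain ⟨a1, a2, a3⟩ := hk0 k hk
  refine ⟨a2, a1, ?_⟩
  have hl : 0 ≤ Real.log k := by linarith
  have hp : 0 ≤ k ^ (0.001 : ℝ) := Real.rpow_nonneg (by linarith) _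
  rw [Real.norm_of_nonneg (Real.rpow_nonneg hl _), Real.norm_of_nonneg hp, Real.rpow_two] at a3
  linarith

section
variable {k : ℝ} (hk : Big k)
include hk

theorem k0 : 0 < k := lt_of_lt_of_le one_pos hk.one

theorem rle {a b : ℝ} (h : a ≤ b) : k ^ a ≤ k ^ b :=
  Real.rpow_le_rpow_of_exponent_le hk.one h

theorem rpos (a : ℝ) : 0 < k ^ a := Real.rpow_pos_of_pos (k0 hk) a

theorem rone {a : ℝ} (h : 0 ≤ a) : 1 ≤ k ^ a := Real.one_le_rpow hk.one h

theorem radd (a b : ℝ) : k ^ a * k ^ b = k ^ (a + b) := (Real.rpow_add (k0 hk) a b).symm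

theorem big1 : 43200000000 ≤ k ^ (0.001 : ℝ) := by
  have h1 := hk.log
  have h2 := hk.pow
  nlinarith

theorem big2 {a : ℝ} (h : 0.001 ≤ a) : 43200000000 ≤ k ^ a := (big1 hk).trans (rle hk h)

theorem bigk : 43200000000 ≤ k := by
  have h1 := big2 hk (a := 1) (by norm_num)
  rwa [Real.rpow_one] at h1

theorem L1_le : (kL1 k : ℝ) ≤ k ^ (0.003 : ℝ) := Nat.floor_le (rpos hk _).le

theorem L1_pos : 1 ≤ kL1 k := Nat.le_floor (by rw [Nat.cast_one]; exact rone hk (by norm_num))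

theorem T_le : (kT k : ℝ) ≤ k ^ (0.476 : ℝ) := Nat.floor_le (rpos hk _).le

theorem tau_ge (a : ℕ) : k ^ kex a ≤ (kτ k a : ℝ) := Nat.le_ceil _

theorem kex_lo (a : ℕ) : (0.5 : ℝ) ≤ kex a := by
  unfold kex
  rcases lt_or_ge a 11 with h | h
  · interval_cases a <;> simp <;> norm_num
  · rw [List.getD_eq_default _ _ (by simpa using h)]
    norm_num

theorem tau_le (a : ℕ) : (kτ k a : ℝ) ≤ 2 * k ^ kex a := by
  have h1 := (Nat.ceil_lt_add_one (rpos hk (kex a)).le).le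
  have h2 := rone hk (a := kex a) (by have := kex_lo hk a; linarith)
  unfold kτ
  linarith

theorem pi_nonneg (a : ℕ) : 0 ≤ kπ k a := by
  unfold kπ
  positivity

theorem pi_le (a : ℕ) : kπ k a ≤ 8 * Real.log k ^ 2 * k ^ (0.003 - kex a) := by
  unfold kπ
  rw [div_le_iff₀ (lt_of_lt_of_le (rpos hk _) (tau_ge hk a))]
  have h1 : k ^ (0.003 : ℝ) ≤ k ^ (0.003 - kex a) * (kτ k a : ℝ) := by
    calc k ^ (0.003 : ℝ) = k ^ (0.003 - kex a) * k ^ kex a := by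
          rw [radd hk]
          congr 1
          ring
      _ ≤ _ := mul_le_mul_of_nonneg_left (tau_ge hk a) (rpos hk _).le
  have h2 := (L1_le hk).trans h1
  have h3 : 0 ≤ 8 * Real.log k ^ 2 := by positivity
  calc 8 * Real.log k ^ 2 * (kL1 k : ℝ) ≤ 8 * Real.log k ^ 2 * (k ^ (0.003 - kex a) * (kτ k a : ℝ)) :=
        mul_le_mul_of_nonneg_left h2 h3
    _ = _ := by ring

theorem pi_le_one (a : ℕ) : kπ k a ≤ 1 := by
  refine (pi_le hk a).trans ?_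
  have h1 : k ^ (0.003 - kex a) ≤ k ^ (-0.001 : ℝ) :=
    rle hk (by have := kex_lo hk a; linarith)
  have h2 : k ^ (0.001 : ℝ) * k ^ (-0.001 : ℝ) = 1 := by
    rw [radd hk]
    norm_num
  have h3 := hk.pow
  have h4 := rpos hk (-0.001 : ℝ)
  have h5 : 0 ≤ Real.log k ^ 2 := by positivity
  calc 8 * Real.log k ^ 2 * k ^ (0.003 - kex a) ≤ 8 * Real.log k ^ 2 * k ^ (-0.001 : ℝ) :=
        mul_le_mul_of_nonneg_left h1 (by positivity)
    _ ≤ k ^ (0.001 : ℝ) * k ^ (-0.001 : ℝ) :=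
        mul_le_mul_of_nonneg_right (by linarith) h4.le
    _ = 1 := h2

theorem coin (a : ℕ) : (1 - kπ k a) ^ (kτ k a / kL1 k) ≤ kε k := by
  have hp0 := pi_nonneg hk a
  have hp1 := pi_le_one hk a
  have h1 : (1 - kπ k a) ^ (kτ k a / kL1 k) ≤
      Real.exp (-(kπ k a) * ((kτ k a / kL1 k : ℕ) : ℝ)) := by
    rw [mul_comm, Real.exp_nat_mul]
    exact pow_le_pow_left₀ (by linarith) (Real.one_sub_le_exp_neg _) _
  refine h1.trans ?_
  unfold kε
  rw [Real.rpow_def_of_pos (k0 hk)]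
  apply Real.exp_le_exp.2
  have hL := L1_pos hk
  have hτ : (0 : ℝ) < kτ k a := lt_of_lt_of_le (rpos hk _) (tau_ge hk a)
  have h2 : (kτ k a : ℝ) < ((kτ k a / kL1 k : ℕ) + 1) * (kL1 k : ℝ) := by
    exact_mod_cast Nat.lt_mul_of_div_lt (Nat.lt_succ_self _) hL
  have h3 : 2 * (kL1 k : ℝ) ≤ kτ k a := by
    have e1 := L1_le hk
    have e2 := tau_ge hk a
    have e3 : k ^ (0.003 : ℝ) * k ^ (0.001 : ℝ) ≤ k ^ kex a := by
      rw [radd hk]
      exact rle hk (by have := kex_lo hk a; linarith)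
    have e4 := big1 hk
    have e5 := rpos hk (0.003 : ℝ)
    nlinarith
  have h4 : 4 * Real.log k ^ 2 ≤ kπ k a * ((kτ k a / kL1 k : ℕ) : ℝ) := by
    unfold kπ
    rw [div_mul_eq_mul_div, le_div_iff₀ hτ]
    have h5 : (kτ k a : ℝ) ≤ 2 * ((kL1 k : ℝ) * ((kτ k a / kL1 k : ℕ) : ℝ)) := by nlinarith
    have h6 : 0 ≤ 4 * Real.log k ^ 2 := by positivity
    calc 4 * Real.log k ^ 2 * (kτ k a : ℝ) ≤
          4 * Real.log k ^ 2 * (2 * ((kL1 k : ℝ) * ((kτ k a / kL1 k : ℕ) : ℝ))) :=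
          mul_le_mul_of_nonneg_left h5 h6
      _ = _ := by ring
  have h7 := hk.log
  nlinarith

end

theorem kex_pair (a : ℕ) (ha : a < 11) : (0.004 - 0.52 + 1.5 * kex (a + 1) - kex a : ℝ) ≤ -0.006 ∧
    (0.004 - 1.034 + 2 * kex (a + 1) - kex a : ℝ) ≤ -0.006 := by
  unfold kex
  interval_cases a <;> simp <;> norm_num

section
variable {k : ℝ} (hk : Big k)
include hk

theorem km_pi {n : ℕ} {d : ℝ} (hn : (n : ℝ) ≤ k) (hd : k ^ (0.99 : ℝ) ≤ d) (a : ℕ) (ha : a < 11) :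
    (km k n d a : ℝ) * kπ k a ≤ 8 * Real.log k ^ 2 * (100369 * k ^ (-0.006 : ℝ)) := by
  have hex := kex_lo hk
  obtain ⟨x1, x2⟩ := kex_pair a ha
  obtain ⟨e, he⟩ : ∃ e, e = kex a := ⟨_, rfl⟩
  obtain ⟨e', he'⟩ : ∃ e, e = kex (a + 1) := ⟨_, rfl⟩
  obtain ⟨t, ht⟩ : ∃ t, t = kτ k (a + 1) := ⟨_, rfl⟩
  have hes : 0.5 ≤ e := he ▸ hex a
  have hes' : 0.5 ≤ e' := he' ▸ hex (a + 1)
  have ht2 : (t : ℝ) ≤ 2 * k ^ e' := by rw [ht, he']; exact tau_le hk _
  have hd0 : 0 < d := lt_of_lt_of_le (rpos hk _) hd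
  have hT := T_le hk
  have hT0 : (0 : ℝ) ≤ kT k := Nat.cast_nonneg _
  -- the square root
  have hs : Real.sqrt t ≤ 2 * k ^ (e' / 2) := by
    apply Real.sqrt_le_iff.2
    refine ⟨by have := rpos hk (e' / 2); positivity, ht2.trans ?_⟩
    rw [mul_pow, ← Real.rpow_mul_natCast (k0 hk).le]
    have : e' / 2 * ((2 : ℕ) : ℝ) = e' := by push_cast; ring
    rw [this]
    have := rpos hk e'
    linarith
  have A : 30 * (t * Real.sqrt t) / d ≤ 120 * k ^ (1.5 * e' - 0.99) := by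
    rw [div_le_iff₀ hd0]
    have e1 : (t : ℝ) * Real.sqrt t ≤ (2 * k ^ e') * (2 * k ^ (e' / 2)) :=
      mul_le_mul ht2 hs (Real.sqrt_nonneg _) (by have := rpos hk e'; positivity)
    have e2 : k ^ e' * k ^ (e' / 2) = k ^ (1.5 * e') := by
      rw [radd hk]; congr 1; ring
    have e3 : k ^ (1.5 * e') ≤ k ^ (1.5 * e' - 0.99) * d := by
      calc k ^ (1.5 * e') = k ^ (1.5 * e' - 0.99) * k ^ (0.99 : ℝ) := by
            rw [radd hk]; congr 1; ring
        _ ≤ _ := mul_le_mul_of_nonneg_left hd (rpos hk _).le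
    nlinarith
  have B : 16 * (kT k : ℝ) * (t : ℝ) ^ 2 / d ^ 2 ≤ 64 * k ^ (2 * e' - 1.504) := by
    rw [div_le_iff₀ (by positivity)]
    have e1 : (t : ℝ) ^ 2 ≤ (2 * k ^ e') ^ 2 := pow_le_pow_left₀ (Nat.cast_nonneg _) ht2 2
    have e2 : k ^ (0.476 : ℝ) * (k ^ e') ^ 2 = k ^ (2 * e' - 1.504) * (k ^ (0.99 : ℝ)) ^ 2 := by
      rw [pow_two, pow_two, radd hk, radd hk, radd hk, radd hk]
      congr 1
      ring
    have e3 : (k ^ (0.99 : ℝ)) ^ 2 ≤ d ^ 2 := pow_le_pow_left₀ (rpos hk _).le hd 2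
    have e4 : (kT k : ℝ) * (t : ℝ) ^ 2 ≤ k ^ (0.476 : ℝ) * (2 * k ^ e') ^ 2 :=
      mul_le_mul hT e1 (by positivity) (rpos hk _).le
    have e5 := mul_le_mul_of_nonneg_left e3 (rpos hk (2 * e' - 1.504)).le
    nlinarith
  have hr : kr k = k ^ (-0.53 : ℝ) := rfl
  have hr0 : 0 < kr k := rpos hk _
  have Q : n * kq k d t ≤ 240 * k ^ (-0.52 + 1.5 * e') + 128 * k ^ (-1.034 + 2 * e') := by
    unfold kq
    have hn0 : (0 : ℝ) ≤ n := Nat.cast_nonneg _
    have e0 : 0 ≤ 30 * (t * Real.sqrt t) / d + 16 * (kT k : ℝ) * (t : ℝ) ^ 2 / d ^ 2 := by positivity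
    have e1 : (n : ℝ) * (2 * (kr k * (30 * (t * Real.sqrt t) / d + 16 * (kT k : ℝ) * (t : ℝ) ^ 2 / d ^ 2))) ≤
        k * (2 * (kr k * (120 * k ^ (1.5 * e' - 0.99) + 64 * k ^ (2 * e' - 1.504)))) := by
      apply mul_le_mul hn _ (by positivity) (k0 hk).le
      apply mul_le_mul_of_nonneg_left _ (by norm_num)
      apply mul_le_mul_of_nonneg_left _ hr0.le
      linarith
    refine e1.trans (le_of_eq ?_)
    rw [hr]
    have e2 : k * (k ^ (-0.53 : ℝ) * k ^ (1.5 * e' - 0.99)) = k ^ (-0.52 + 1.5 * e') := by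
      nth_rewrite 1 [← Real.rpow_one k]
      rw [radd hk, radd hk]
      congr 1
      ring
    have e3 : k * (k ^ (-0.53 : ℝ) * k ^ (2 * e' - 1.504)) = k ^ (-1.034 + 2 * e') := by
      nth_rewrite 1 [← Real.rpow_one k]
      rw [radd hk, radd hk]
      congr 1
      ring
    rw [← e2, ← e3]
    ring
  have M : (km k n d a : ℝ) ≤ k ^ (0.001 : ℝ) * (n * kq k d t) + 100001 := by
    unfold km
    rw [← ht, Nat.cast_add]
    have hq0 : 0 ≤ kq k d t := by unfold kq; positivity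
    have e1 := (Nat.ceil_lt_add_one (a := k ^ (0.001 : ℝ) * (n * kq k d t))
      (by have := rpos hk (0.001 : ℝ); positivity)).le
    push_cast
    linarith
  have P := pi_le hk a
  rw [← he] at P
  have hM : (km k n d a : ℝ) ≤ k ^ (0.001 : ℝ) * (240 * k ^ (-0.52 + 1.5 * e') +
      128 * k ^ (-1.034 + 2 * e')) + 100001 := by
    have := mul_le_mul_of_nonneg_left Q (rpos hk (0.001 : ℝ)).le
    linarith
  have hR0 : 0 ≤ k ^ (0.001 : ℝ) * (240 * k ^ (-0.52 + 1.5 * e') +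
      128 * k ^ (-1.034 + 2 * e')) + 100001 := by
    have h1 := rpos hk (0.001 : ℝ)
    have h2 := rpos hk (-0.52 + 1.5 * e')
    have h3 := rpos hk (-1.034 + 2 * e')
    positivity
  refine (mul_le_mul hM P (pi_nonneg hk a) hR0).trans ?_
  have f1 : k ^ (0.001 : ℝ) * k ^ (-0.52 + 1.5 * e') * k ^ (0.003 - e) ≤ k ^ (-0.006 : ℝ) := by
    rw [radd hk, radd hk]
    apply rle hk
    rw [← he, ← he'] at x1
    linarith
  have f2 : k ^ (0.001 : ℝ) * k ^ (-1.034 + 2 * e') * k ^ (0.003 - e) ≤ k ^ (-0.006 : ℝ) := by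
    rw [radd hk, radd hk]
    apply rle hk
    rw [← he, ← he'] at x2
    linarith
  have f3 : k ^ (0.003 - e) ≤ k ^ (-0.006 : ℝ) := rle hk (by linarith)
  have hl : 0 ≤ 8 * Real.log k ^ 2 := by positivity
  have f4 : (k ^ (0.001 : ℝ) * (240 * k ^ (-0.52 + 1.5 * e') +
      128 * k ^ (-1.034 + 2 * e')) + 100001) * k ^ (0.003 - e) ≤ 100369 * k ^ (-0.006 : ℝ) := by
    linarith
  calc (k ^ (0.001 : ℝ) * (240 * k ^ (-0.52 + 1.5 * e') +
      128 * k ^ (-1.034 + 2 * e')) + 100001) * (8 * Real.log k ^ 2 * k ^ (0.003 - e)) =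
      8 * Real.log k ^ 2 * ((k ^ (0.001 : ℝ) * (240 * k ^ (-0.52 + 1.5 * e') +
      128 * k ^ (-1.034 + 2 * e')) + 100001) * k ^ (0.003 - e)) := by ring
    _ ≤ _ := mul_le_mul_of_nonneg_left f4 hl

theorem sum_le {n : ℕ} {d : ℝ} (hn : (n : ℝ) ≤ k) (hd : k ^ (0.99 : ℝ) ≤ d) :
    (∑ a ∈ range 11, (km k n d a : ℝ) * kπ k a) + n * kπ k 11 ≤ k ^ (-0.005 : ℝ) := by
  have h1 : (∑ a ∈ range 11, (km k n d a : ℝ) * kπ k a) ≤
      ∑ a ∈ range 11, 8 * Real.log k ^ 2 * (100369 * k ^ (-0.006 : ℝ)) :=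
    Finset.sum_le_sum fun a ha => km_pi hk hn hd a (Finset.mem_range.1 ha)
  rw [Finset.sum_const, Finset.card_range, nsmul_eq_mul] at h1
  have h2 : (n : ℝ) * kπ k 11 ≤ 8 * Real.log k ^ 2 * k ^ (-0.006 : ℝ) := by
    have e1 := pi_le hk 11
    have e2 : kex 11 = 1.012 := by unfold kex; simp
    rw [e2] at e1
    have e3 : k * k ^ (0.003 - 1.012 : ℝ) ≤ k ^ (-0.006 : ℝ) := by
      nth_rewrite 1 [← Real.rpow_one k]
      rw [radd hk]
      exact rle hk (by norm_num)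
    calc (n : ℝ) * kπ k 11 ≤ k * (8 * Real.log k ^ 2 * k ^ (0.003 - 1.012 : ℝ)) :=
          mul_le_mul hn e1 (pi_nonneg hk 11) (k0 hk).le
      _ = 8 * Real.log k ^ 2 * (k * k ^ (0.003 - 1.012 : ℝ)) := by ring
      _ ≤ _ := mul_le_mul_of_nonneg_left e3 (by positivity)
  have h3 : k ^ (0.001 : ℝ) * k ^ (-0.006 : ℝ) = k ^ (-0.005 : ℝ) := by
    rw [radd hk]
    norm_num
  have h4 := mul_le_mul_of_nonneg_right hk.pow (rpos hk (-0.006 : ℝ)).le
  rw [h3] at h4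
  have h5 := rpos hk (-0.006 : ℝ)
  have h6 : 0 ≤ Real.log k ^ 2 * k ^ (-0.006 : ℝ) := by positivity
  push_cast at h1
  linarith

end

/-- NU3 -/
theorem nu3 : NU3Stmt := by
  obtain ⟨k0', hk0'⟩ := big_ev
  refine ⟨k0', fun k n s eps hk0k hN => ?_⟩
  have hk := hk0' k hk0k
  have hkk := bigk hk
  have hd : k ^ (0.99 : ℝ) ≤ kd s eps := by
    unfold kd
    have h1 := hN.s1
    have h2 := hN.e0
    have h3 : 0 < s := lt_of_lt_of_le (rpos hk _) h1
    nlinarith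
  refine ⟨pi_nonneg hk, pi_le_one hk, fun a _ => coin hk a, ?_, ?_⟩
  · have h1 := sum_le hk hN.nk hd
    have h0 : 0 ≤ (∑ a ∈ range 11, (km k n (kd s eps) a : ℝ) * kπ k a) + n * kπ k 11 := by
      apply add_nonneg
      · apply Finset.sum_nonneg
        intro a _
        exact mul_nonneg (Nat.cast_nonneg _) (pi_nonneg hk a)
      · exact mul_nonneg (Nat.cast_nonneg _) (pi_nonneg hk 11)
    have h2 : Real.exp 1 * ((∑ a ∈ range 11, (km k n (kd s eps) a : ℝ) * kπ k a) + n * kπ k 11) /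
        ((100000 : ℕ) : ℝ) ≤ k ^ (-0.005 : ℝ) := by
      rw [div_le_iff₀ (by norm_num)]
      have h3 := Real.exp_one_lt_d9
      have h4 : Real.exp 1 ≤ ((100000 : ℕ) : ℝ) := by
        push_cast
        linarith
      calc Real.exp 1 * ((∑ a ∈ range 11, (km k n (kd s eps) a : ℝ) * kπ k a) + n * kπ k 11) ≤
          ((100000 : ℕ) : ℝ) * k ^ (-0.005 : ℝ) :=
            mul_le_mul h4 h1 h0 (Nat.cast_nonneg _)
        _ = _ := mul_comm _ _
    have h3 : 0 ≤ Real.exp 1 * ((∑ a ∈ range 11, (km k n (kd s eps) a : ℝ) * kπ k a) +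
        n * kπ k 11) / ((100000 : ℕ) : ℝ) :=
      div_nonneg (mul_nonneg (Real.exp_pos 1).le h0) (Nat.cast_nonneg _)
    refine (pow_le_pow_left₀ h3 h2 _).trans ?_
    rw [← Real.rpow_mul_natCast (k0 hk).le]
    unfold kε
    apply rle hk
    norm_num
  · unfold kε
    have hL : (kL k : ℝ) ≤ 2 * k ^ 2 := by
      have e1 := tau_le hk 11
      have e2 : kex 11 = 1.012 := by unfold kex; simp
      rw [e2] at e1
      have e3 : k ^ (1.012 : ℝ) ≤ k ^ 2 := by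
        rw [← Real.rpow_two]
        exact rle hk (by norm_num)
      unfold kL
      linarith
    have hT : (kT k : ℝ) ^ 2 ≤ k := by
      have e1 := pow_le_pow_left₀ (Nat.cast_nonneg _) (T_le hk) 2
      have e2 : (k ^ (0.476 : ℝ)) ^ 2 ≤ k := by
        rw [pow_two, radd hk]
        nth_rewrite 2 [← Real.rpow_one k]
        exact rle hk (by norm_num)
      exact e1.trans e2
    have hn := hN.nk
    have h1k := hk.one
    have hk2 : k ≤ k ^ 2 := by nlinarith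
    have h1k2 : 1 ≤ k ^ 2 := by nlinarith
    have hL0 : (0 : ℝ) ≤ kL k := Nat.cast_nonneg _
    have hT0 : (0 : ℝ) ≤ (kT k : ℝ) ^ 2 := by positivity
    have a1 : ((((11 : ℕ) : ℝ) + 1) * n + kL k) ≤ 14 * k ^ 2 := by
      push_cast
      linarith
    have a2 : (2 + kL k + ((100 : ℕ) : ℝ) * (4 * kL k + 5) * (kT k : ℝ) ^ 2) ≤ 1304 * k ^ 4 := by
      have e1 : (4 * (kL k : ℝ) + 5) * (kT k : ℝ) ^ 2 ≤ (13 * k ^ 2) * k ^ 2 :=
        mul_le_mul (by linarith) (hT.trans hk2) hT0 (by positivity)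
      have e2 : k ^ 2 ≤ k ^ 4 := by nlinarith
      push_cast
      nlinarith
    have a3 : k ^ (-60 : ℝ) * (k ^ 2 * k ^ 4) ≤ 1 / 43200000000 := by
      have e1 : k ^ 2 * k ^ 4 = k ^ (6 : ℝ) := by
        rw [← pow_add]
        norm_num
      rw [e1, radd hk]
      have e2 : k ^ (-60 + 6 : ℝ) ≤ k ^ (-1 : ℝ) := rle hk (by norm_num)
      refine e2.trans ?_
      rw [Real.rpow_neg_one, ← one_div]
      exact one_div_le_one_div_of_le (by norm_num) hkk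
    have hx := rpos hk (-60 : ℝ)
    have a4 : ((((11 : ℕ) : ℝ) + 1) * n + kL k) *
        (2 + kL k + ((100 : ℕ) : ℝ) * (4 * kL k + 5) * (kT k : ℝ) ^ 2) ≤
        (14 * k ^ 2) * (1304 * k ^ 4) :=
      mul_le_mul a1 a2 (by positivity) (by positivity)
    have a5 := mul_le_mul_of_nonneg_left a4 hx.le
    calc 4 * k ^ (-60 : ℝ) * ((((11 : ℕ) : ℝ) + 1) * n + kL k) *
        (2 + kL k + ((100 : ℕ) : ℝ) * (4 * kL k + 5) * (kT k : ℝ) ^ 2) =
        4 * (k ^ (-60 : ℝ) * (((((11 : ℕ) : ℝ) + 1) * n + kL k) *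
        (2 + kL k + ((100 : ℕ) : ℝ) * (4 * kL k + 5) * (kT k : ℝ) ^ 2))) := by ring
      _ ≤ 4 * (k ^ (-60 : ℝ) * ((14 * k ^ 2) * (1304 * k ^ 4))) := by linarith
      _ = 73024 * (k ^ (-60 : ℝ) * (k ^ 2 * k ^ 4)) := by ring
      _ ≤ 73024 * (1 / 43200000000) := by linarith
      _ ≤ 1 := by norm_num

end Pool.Agent.C4K.H17
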